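import Mathlib
import Pool.Agent.Helper61.Clique12.Final

/-!
# Clique achievement in the (1:2) Maker-Breaker game on the edges of the complete graph

The board is the edge set of the complete graph on `Fin N`. Maker claims one unclaimed edge per
turn and moves first, Breaker claims two unclaimed edges per turn (or all remaining ones, if
fewer than two are left). We show that for all large `N` Maker has a (positional) strategy which
claims all edges of a clique on `q` vertices for every
`q ≤ 2 log_3 N - 2 log_3 log_3 N - 6`.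
-/

namespace Pool.Agent.Results.MP_a0b3bb_co.CliqueOneTwo

/-- The unclaimed edges of the complete graph on `Fin N` when Maker has claimed the edges in `M`
and Breaker has claimed the edges in `B`. -/
def free (N : ℕ) (M B : Finset (Sym2 (Fin N))) : Finset (Sym2 (Fin N)) :=
  (⊤ : SimpleGraph (Fin N)).edgeFinset \ (M ∪ B)

/-- The edge set `M` contains all edges of a clique on `q` vertices. -/
def HasClique (N q : ℕ) (M : Finset (Sym2 (Fin N))) : Prop :=
  ∃ A : Finset (Fin N), A.card = q ∧ ∀ a ∈ A, ∀ b ∈ A, a ≠ b → s(a, b) ∈ M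

/-- A legal (positional) strategy for Maker: from the sets `M`, `B` of edges claimed by Maker and
by Breaker it names an edge, which is unclaimed whenever there is an unclaimed edge. -/
def LegalStrategy (N : ℕ)
    (σ : Finset (Sym2 (Fin N)) → Finset (Sym2 (Fin N)) → Sym2 (Fin N)) : Prop :=
  ∀ M B, (free N M B).Nonempty → σ M B ∈ free N M B

/-- A play of the (1:2) game in which Maker follows the strategy `σ`: `p t` is the pair
(edges claimed by Maker, edges claimed by Breaker) after `t` rounds. While there is an unclaimed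
edge, Maker claims the edge named by `σ`, and then Breaker claims two of the remaining unclaimed
edges (all the remaining ones, if there are fewer than two). -/
def IsPlay (N : ℕ) (σ : Finset (Sym2 (Fin N)) → Finset (Sym2 (Fin N)) → Sym2 (Fin N))
    (p : ℕ → Finset (Sym2 (Fin N)) × Finset (Sym2 (Fin N))) : Prop :=
  p 0 = (∅, ∅) ∧
  (∀ t, (free N (p t).1 (p t).2).Nonempty →
    ∃ T ⊆ free N (insert (σ (p t).1 (p t).2) (p t).1) (p t).2,
      T.card = min 2 (free N (insert (σ (p t).1 (p t).2) (p t).1) (p t).2).card ∧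
      p (t + 1) = (insert (σ (p t).1 (p t).2) (p t).1, (p t).2 ∪ T)) ∧
  (∀ t, free N (p t).1 (p t).2 = ∅ → p (t + 1) = p t)

/-- Sanity check: every strategy has a play. -/
theorem exists_play (N : ℕ)
    (σ : Finset (Sym2 (Fin N)) → Finset (Sym2 (Fin N)) → Sym2 (Fin N)) :
    ∃ p, IsPlay N σ p := by
  classical
  have h : ∀ M B, ∃ T ⊆ free N (insert (σ M B) M) B,
      T.card = min 2 (free N (insert (σ M B) M) B).card :=
    fun M B => Finset.exists_subset_card_eq (min_le_right _ _)
  choose T hT hT2 using h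
  refine ⟨fun t => Nat.rec (∅, ∅) (fun _ x => if (free N x.1 x.2).Nonempty then
    (insert (σ x.1 x.2) x.1, x.2 ∪ T x.1 x.2) else x) t, rfl, fun t ht => ?_, fun t ht => ?_⟩
  · exact ⟨_, hT _ _, hT2 _ _, if_pos ht⟩
  · exact if_neg (by rw [ht]; exact Finset.not_nonempty_empty)

/-- Positive answer to Q1, with the constant `C = 6`: for all large `N` Maker has a strategy in
the (1:2) game on `K_N` with which she achieves `K_q` for every
`q ≤ 2 log_3 N - 2 log_3 log_3 N - 6`. -/
theorem result : ∃ N₀ : ℕ, ∀ N : ℕ, N₀ ≤ N →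
    ∃ σ : Finset (Sym2 (Fin N)) → Finset (Sym2 (Fin N)) → Sym2 (Fin N),
      LegalStrategy N σ ∧
      ∀ p, IsPlay N σ p → ∃ t, ∀ q : ℕ,
        (q : ℝ) ≤ 2 * Real.logb 3 N - 2 * Real.logb 3 (Real.logb 3 N) - 6 →
        HasClique N q (p t).1 := by
  refine ⟨1100 * 3 ^ 50, fun N hN => ?_⟩
  obtain ⟨q, m, hq, hm, hqm, hNlt, hr⟩ := Clique12.params hN
  have hN1 : 1 ≤ N := le_trans (by norm_num) hN
  have hm1 : 1 ≤ m := by
    rcases Nat.eq_zero_or_pos m with h | h
    · subst h
      have : 0 < 3 ^ q := by positivity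
      simp at hm
    · exact h
  obtain ⟨σ, hσ, hwin⟩ := Clique12.clique_core hN1 hm1 hqm (Clique12.numeric hq hm hNlt)
    ((⊤ : SimpleGraph (Fin N)).edgeFinset) (Clique12.isFull_top N)
  refine ⟨σ, hσ, fun p hp => ?_⟩
  obtain ⟨hp0, hstep, -⟩ := hp
  obtain ⟨t, A, hA, hcl⟩ := hwin p hp0 (fun t ht => by
    obtain ⟨T, hT, hT2, hpt⟩ := hstep t ht
    exact ⟨T, hT, hT2.trans_le (min_le_left _ _), hpt⟩)
  refine ⟨t, fun r hrr => ?_⟩
  have hrq : r ≤ A.card := by
    rw [hA]; exact hr r hrr
  obtain ⟨A', hA', hcard⟩ := Finset.exists_subset_card_eq hrq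
  exact ⟨A', hcard, fun a ha b hb hab => hcl a (hA' ha) b (hA' hb) hab⟩

end Pool.Agent.Results.MP_a0b3bb_co.CliqueOneTwo
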